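import Pool.Agent.W2helper79.PF.Final

/-!
# Davidson's function `I` and the threshold `c = 1/e`

For a standard p-function `p` put `lowest p = inf {p t : 0 ≤ t ≤ 1}` and let `I M` be the infimum of
`lowest p` over all standard p-functions with `p 1 = M`.  We prove, for every `0 < M ≤ 1`,

`I M = max 0 (1 + log M)`,

and hence `c = inf {M : I M > 0} = 1/e`, as conjectured by Davidson.

Lower bound: every standard p-function satisfies `p s ≤ exp (p t - 1)` for `t ≤ s`
(`Pool.Agent.W2helper79.PF.pfun_ineq`).  This follows from an inequality for renewal sequences: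
if `u` is the renewal sequence of weights `f k ≥ 0` (for a jump of size `k + 1`) of total mass at
most one, then `u (m + n) ≤ exp (- f 0 * (1 - u m))`
(`Pool.Agent.W2helper79.PF.renewal_ineq`).  The proof is an induction on the number of weights of
the stronger inequality
`u (m + n) - u m * u n + (1 - ∑ f) * max_{j < n} (u * u) j + ρ * u n ≤ exp (- f 0 * (1 - ρ))`
for all `0 ≤ ρ ≤ 1` and all `m`, `n`.

Upper bound: alternating processes with exponential holding times and gaps of fixed length
(`Pool.Agent.W2helper79.PF.oneAtom_standard`).
-/

open scoped NNReal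
open Pool.Agent.W2helper79.PF

/-- `I M = max 0 (1 + log M)` for all `M ∈ (0,1]`, and the threshold `c` is `1/e`. -/
theorem Pool.Agent.Results.MP_5fed26_pr.DavidsonFunction.result :
    (∀ M : ℝ, 0 < M → M ≤ 1 → I M = max 0 (1 + Real.log M)) ∧
      threshold = Real.exp (-1) :=
  ⟨fun _ h0 h1 => I_eq h0 h1, threshold_eq⟩
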